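import Pool.Agent.Q296.TW.Local
import Pool.Agent.Q296.BF.PlaceN

/-! # The hypersurfaces `∑ dⁱ F_i(x_i, t_i) = 0` as twists -/

set_option autoImplicit false

namespace Pool.Agent.Q296.TW

open Pool.Agent.Q296.BF Pool.Agent.TH377.Sup Pool.Agent.Q52.SecZ

/-- the hypersurface `∑ F_i(x_i, t_i) = 0` -/
noncomputable def hyp {r ℓ : ℕ} (c : Fin r → Fin (ℓ + 1) → ℤ) : MvPolynomial (Fin (r * 2)) ℤ :=
  ∑ i : Fin r, ∑ l : Fin (ℓ + 1), MvPolynomial.C (c i l) *
    MvPolynomial.X (finProdFinEquiv (i, (0 : Fin 2))) ^ (l : ℕ) *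
    MvPolynomial.X (finProdFinEquiv (i, (1 : Fin 2))) ^ (ℓ - l)

lemma hyp_hom {r ℓ : ℕ} (c : Fin r → Fin (ℓ + 1) → ℤ) : (hyp c).IsHomogeneous ℓ := by
  refine MvPolynomial.IsHomogeneous.sum _ _ _ fun i _ => ?_
  refine MvPolynomial.IsHomogeneous.sum _ _ _ fun l _ => ?_
  have h1 := ((MvPolynomial.isHomogeneous_C (Fin (r * 2)) (c i l)).mul
    (MvPolynomial.isHomogeneous_X_pow (R := ℤ) (finProdFinEquiv (i, (0 : Fin 2))) (l : ℕ))).mul
    (MvPolynomial.isHomogeneous_X_pow (R := ℤ) (finProdFinEquiv (i, (1 : Fin 2))) (ℓ - l))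
  have h2 : 0 + (l : ℕ) + (ℓ - l) = ℓ := by
    have := l.isLt
    omega
  rw [h2] at h1
  exact h1

lemma eval₂_hyp {r ℓ : ℕ} (c : Fin r → Fin (ℓ + 1) → ℤ) {S : Type} [CommRing S] (φ : ℤ →+* S)
    (z : Fin (r * 2) → S) :
    MvPolynomial.eval₂ φ z (hyp c) = ∑ i : Fin r, hval (fun l => φ (c i l))
      (z (finProdFinEquiv (i, (0 : Fin 2)))) (z (finProdFinEquiv (i, (1 : Fin 2)))) := by
  rw [hyp, MvPolynomial.eval₂_sum]
  refine Finset.sum_congr rfl fun i _ => ?_
  rw [MvPolynomial.eval₂_sum, hval]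
  refine Finset.sum_congr rfl fun l _ => ?_
  rw [MvPolynomial.eval₂_mul, MvPolynomial.eval₂_mul, MvPolynomial.eval₂_C,
    MvPolynomial.eval₂_pow, MvPolynomial.eval₂_pow, MvPolynomial.eval₂_X, MvPolynomial.eval₂_X]

lemma hval_smul {S : Type} [CommRing S] {ℓ : ℕ} (c : Fin (ℓ + 1) → S) (a x t : S) :
    hval c (a * x) (a * t) = a ^ ℓ * hval c x t := by
  rw [hval, hval, Finset.mul_sum]
  refine Finset.sum_congr rfl fun l _ => ?_
  have h1 : a ^ ℓ = a ^ (l : ℕ) * a ^ (ℓ - l) := by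
    rw [← pow_add]
    congr 1
    have := l.isLt
    omega
  rw [h1, mul_pow, mul_pow]
  ring

lemma hval_zero {S : Type} [CommRing S] {ℓ : ℕ} (c : Fin (ℓ + 1) → S) (hℓ : ℓ ≠ 0) :
    hval c 0 0 = 0 := by
  apply Finset.sum_eq_zero
  intro l _
  by_cases hl : (l : ℕ) = 0
  · have : ℓ - (l : ℕ) ≠ 0 := by omega
    rw [zero_pow this, mul_zero]
  · rw [zero_pow hl, mul_zero, zero_mul]

/-- the weights -/
def wt {r : ℕ} (j : Fin (r * 2)) : ℕ := ((finProdFinEquiv.symm j).1 : ℕ)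

lemma wt_apply {r : ℕ} (i : Fin r) (b : Fin 2) : wt (finProdFinEquiv (i, b)) = (i : ℕ) := by
  rw [wt, Equiv.symm_apply_apply]

/-- a point of the hypersurface is a point of the twist -/
lemma point_twist {r ℓ : ℕ} (hℓ : ℓ ≠ 0) (c : Fin r → Fin (ℓ + 1) → ℤ) (d : ℤ) (E : Type) [Field E]
    (x t : Fin r → E) (hne : ∃ i, x i ≠ 0 ∨ t i ≠ 0)
    (h : ∑ i : Fin r, (d : E) ^ (i : ℕ) * hval (fun l => ((c i l : ℤ) : E)) (x i) (t i) = 0) :
    ∃ (z : Fin (r * 2) → E) (δ : AlgebraicClosure E), z ≠ 0 ∧ δ ^ (ℓ ^ 1) = (d : AlgebraicClosure E) ∧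
      MvPolynomial.eval₂ (Int.castRingHom (AlgebraicClosure E))
        (fun j => δ ^ (wt j) * algebraMap E (AlgebraicClosure E) (z j)) (hyp c) = 0 := by
  obtain ⟨δ, hδ⟩ := IsAlgClosed.exists_pow_nat_eq (d : AlgebraicClosure E) (Nat.pos_of_ne_zero hℓ)
  refine ⟨fun j => if (finProdFinEquiv.symm j).2 = 0 then x (finProdFinEquiv.symm j).1 else
    t (finProdFinEquiv.symm j).1, δ, ?_, by rw [pow_one, hδ], ?_⟩
  · obtain ⟨i, hi⟩ := hne
    intro h0
    rcases hi with hi | hi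
    · have := congrFun h0 (finProdFinEquiv (i, (0 : Fin 2)))
      simp only [Equiv.symm_apply_apply, if_true, Pi.zero_apply] at this
      exact hi this
    · have := congrFun h0 (finProdFinEquiv (i, (1 : Fin 2)))
      simp only [Equiv.symm_apply_apply, Fin.one_eq_zero_iff, Nat.succ_ne_self, if_false,
        Pi.zero_apply] at this
      exact hi this
  · rw [eval₂_hyp]
    have h1 := congrArg (algebraMap E (AlgebraicClosure E)) h
    rw [map_zero, map_sum] at h1
    rw [← h1]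
    refine Finset.sum_congr rfl fun i _ => ?_
    simp only [wt_apply, Equiv.symm_apply_apply, if_true, Fin.one_eq_zero_iff, Nat.succ_ne_self,
      if_false]
    rw [hval_smul, map_mul, map_pow, map_intCast, ← pow_mul, mul_comm (i : ℕ) ℓ, pow_mul, hδ]
    congr 1
    rw [hval, hval, map_sum]
    refine Finset.sum_congr rfl fun l _ => ?_
    rw [map_mul, map_mul, map_pow, map_pow, map_intCast]
    rfl

open Polynomial in
/-- at an inert prime there are no fixed points -/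
lemma no_fixed {r ℓ : ℕ} (hℓ : ℓ.Prime) (hr : r ≤ ℓ) (c : Fin r → Fin (ℓ + 1) → ℤ) (p : ℕ)
    (hp : p.Prime) (hlast : ∀ i, ((c i (Fin.last ℓ) : ℤ) : ZMod p) ≠ 0)
    (hirr : ∀ i, Irreducible (∑ l : Fin (ℓ + 1), C ((c i l : ℤ) : ZMod p) * X ^ (l : ℕ)))
    (κ : Type) [Field κ] (f : ℕ) (hcard : Nat.card κ = p ^ f) (hf : ¬ ℓ ∣ f)
    (z : Fin (r * 2) → κ) (hz : z ≠ 0)
    (hw : ∀ j j', z j ≠ 0 → z j' ≠ 0 → wt j ≡ wt j' [MOD ℓ ^ 1])
    (h : MvPolynomial.eval₂ (Int.castRingHom κ) z (hyp c) = 0) : False := by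
  classical
  have : Fact p.Prime := ⟨hp⟩
  have hfin : Finite κ := by
    apply Nat.finite_of_card_ne_zero
    rw [hcard]
    exact (pow_pos hp.pos f).ne'
  have : Fintype κ := Fintype.ofFinite κ
  rw [Nat.card_eq_fintype_card] at hcard
  have hchar : CharP κ p := charP_of_card_eq_prime_pow hcard
  let alg : Algebra (ZMod p) κ := ZMod.algebra κ p
  have hrank : Module.finrank (ZMod p) κ = f := by
    have h1 := Module.card_eq_pow_finrank (K := ZMod p) (V := κ)
    rw [hcard, ZMod.card] at h1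
    exact (Nat.pow_right_injective hp.two_le h1).symm
  -- the block
  obtain ⟨j₀, hj₀⟩ : ∃ j, z j ≠ 0 := by
    by_contra hcon
    push Not at hcon
    exact hz (funext hcon)
  set i₀ : Fin r := (finProdFinEquiv.symm j₀).1 with hi₀
  have hother : ∀ (i : Fin r) (b : Fin 2), i ≠ i₀ → z (finProdFinEquiv (i, b)) = 0 := by
    intro i b hi
    by_contra hne
    have h1 := hw _ _ hne hj₀
    rw [wt_apply, pow_one] at h1
    have h2 : (i : ℕ) = wt j₀ := by
      apply Nat.ModEq.eq_of_lt_of_lt h1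
      · exact i.isLt.trans_le hr
      · exact (finProdFinEquiv.symm j₀).1.isLt.trans_le hr
    exact hi (Fin.ext h2)
  rw [eval₂_hyp, Finset.sum_eq_single i₀ (fun i _ hi => by
    rw [hother i 0 hi, hother i 1 hi, hval_zero _ hℓ.ne_zero]) (fun h => absurd (Finset.mem_univ _) h)]
    at h
  set a := z (finProdFinEquiv (i₀, (0 : Fin 2))) with ha
  set b := z (finProdFinEquiv (i₀, (1 : Fin 2))) with hb
  have hab : a ≠ 0 ∨ b ≠ 0 := by
    have h1 : finProdFinEquiv (i₀, (finProdFinEquiv.symm j₀).2) = j₀ := by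
      rw [hi₀]
      exact finProdFinEquiv.apply_symm_apply j₀
    rcases Fin.exists_fin_two.1 ⟨(finProdFinEquiv.symm j₀).2, rfl⟩ with h2 | h2
    · left
      rw [ha, show (0 : Fin 2) = (finProdFinEquiv.symm j₀).2 from h2.symm, h1]
      exact hj₀
    · right
      rw [hb, show (1 : Fin 2) = (finProdFinEquiv.symm j₀).2 from h2.symm, h1]
      exact hj₀
  have hcast : ∀ n : ℤ, (Int.castRingHom κ) n = algebraMap (ZMod p) κ ((n : ℤ) : ZMod p) := by
    intro n
    rw [map_intCast]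
    rfl
  have hlastκ : (Int.castRingHom κ) (c i₀ (Fin.last ℓ)) ≠ 0 := by
    rw [hcast, Ne, map_eq_zero_iff _ (algebraMap (ZMod p) κ).injective]
    exact hlast i₀
  by_cases hb0 : b = 0
  · have ha0 : a ≠ 0 := by
      rcases hab with h1 | h1
      · exact h1
      · exact absurd hb0 h1
    have e1 : hval (fun l => (Int.castRingHom κ) (c i₀ l)) a b =
        (Int.castRingHom κ) (c i₀ (Fin.last ℓ)) * a ^ ℓ := by
      rw [hb0]
      exact hom_eval_zero (fun l => (Int.castRingHom κ) (c i₀ l)) a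
    rw [e1] at h
    rcases mul_eq_zero.1 h with h1 | h1
    · exact hlastκ h1
    · exact ha0 (pow_eq_zero_iff hℓ.ne_zero |>.1 h1)
  · have e1 : hval (fun l => (Int.castRingHom κ) (c i₀ l)) a b =
        b ^ ℓ * (pol fun l => (Int.castRingHom κ) (c i₀ l)).eval (a / b) :=
      hom_eval (fun l => (Int.castRingHom κ) (c i₀ l)) a b hb0
    rw [e1] at h
    have h2 : (pol fun l => (Int.castRingHom κ) (c i₀ l)).eval (a / b) = 0 := by
      rcases mul_eq_zero.1 h with h1 | h1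
      · exact absurd (pow_eq_zero_iff hℓ.ne_zero |>.1 h1) hb0
      · exact h1
    set g : (ZMod p)[X] := ∑ l : Fin (ℓ + 1), C ((c i₀ l : ℤ) : ZMod p) * X ^ (l : ℕ) with hg
    have hgpol : g = pol fun l => ((c i₀ l : ℤ) : ZMod p) := rfl
    have hgdeg : g.natDegree = ℓ := by
      rw [hgpol]
      exact pol_natDegree _ (hlast i₀)
    have h3 : aeval (a / b) g = 0 := by
      rw [aeval_def, ← eval_map, hgpol, pol_map]
      have e2 : (fun l => algebraMap (ZMod p) κ ((c i₀ l : ℤ) : ZMod p)) =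
          fun l => (Int.castRingHom κ) (c i₀ l) := by
        funext l
        exact (hcast _).symm
      rw [e2]
      exact h2
    have hint : IsIntegral (ZMod p) (a / b) := Algebra.IsIntegral.isIntegral _
    have h4 : Associated (minpoly (ZMod p) (a / b)) g :=
      (minpoly.irreducible hint).associated_of_dvd (hirr i₀) (minpoly.dvd _ _ h3)
    have h5 : (minpoly (ZMod p) (a / b)).natDegree = ℓ := by
      rw [natDegree_eq_of_degree_eq (degree_eq_degree_of_associated h4), hgdeg]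
    have h6 := minpoly.degree_dvd hint
    rw [h5, hrank] at h6
    exact hf h6

end Pool.Agent.Q296.TW
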