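import Pool.Agent.Q52.Tw.Loc
import Pool.Agent.Q52.SecY.Above
import Mathlib.NumberTheory.Padics.RingHoms

/-! # Points of a twist over finite extensions of `ℚ_p` and over completions of number fields give
fixed points modulo `p` -/

set_option autoImplicit false

namespace Pool.Agent.Q296.TW

open NumberField IsDedekindDomain WithZero Pool.Agent.Q52.SecY Pool.Agent.Q52.SecV Pool.Agent.Q52.Tw
open Pool.Agent.W189.NF (Ov redMap_eq_zero)

/-- the reduction of a point -/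
theorem red_general {B E : Type} [CommRing B] [IsDomain B] [IsDiscreteValuationRing B] [Field E]
    [Algebra B E] [IsFractionRing B E] (π : B) (hπ : Irreducible π) (κ : Type) [Field κ]
    (ρ : B →+* κ) (hρ : Function.Surjective ρ) (ℓ : ℕ) (hℓ : ℓ.Prime) (d : ℤ) (e : ℕ)
    (he : ¬ ℓ ∣ e) (hord : OrdIs π ((d : ℤ) : E) (e : ℤ)) (k : ℕ) {n : ℕ} (w : Fin n → ℕ)
    {J : Type} (F : J → MvPolynomial (Fin n) ℤ) (D : J → ℕ) (hF : ∀ j, (F j).IsHomogeneous (D j))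
    {Ω : Type} [Field Ω] [Algebra E Ω] (x : Fin n → E) (hx : x ≠ 0) (δ : Ω)
    (hδ : δ ^ (ℓ ^ k) = (d : Ω))
    (h : ∀ j, MvPolynomial.eval₂ (Int.castRingHom Ω)
      (fun i => δ ^ (w i) * algebraMap E Ω (x i)) (F j) = 0) :
    ∃ z : Fin n → κ, z ≠ 0 ∧ (∀ i i', z i ≠ 0 → z i' ≠ 0 → w i ≡ w i' [MOD ℓ ^ k]) ∧
      ∀ j, MvPolynomial.eval₂ (Int.castRingHom κ) z (F j) = 0 := by
  have hcop : IsCoprime ((ℓ ^ k : ℕ) : ℤ) (e : ℤ) := by
    rw [Nat.isCoprime_iff_coprime]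
    exact Nat.Coprime.pow_left k ((Nat.Prime.coprime_iff_not_dvd hℓ).2 he)
  let algB : Algebra B Ω := ((algebraMap E Ω).comp (algebraMap B E)).toAlgebra
  have htow : IsScalarTower B E Ω := IsScalarTower.of_algebraMap_eq fun _ => rfl
  have key := fixed_point (A := B) (E := E) π hπ (ℓ ^ k) (pow_pos hℓ.pos k) ρ (by
      intro a ha
      have hmax : (RingHom.ker ρ).IsMaximal := RingHom.ker_isMaximal_of_surjective ρ hρ
      rw [← IsLocalRing.eq_maximalIdeal hmax] at ha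
      exact ha) δ ((d : ℤ) : E) (by rw [hδ, map_intCast]) (e : ℤ) hord hcop w x hx
    (Int.castRingHom B) F D hF (by
      intro j
      have h1 : (algebraMap B Ω).comp (Int.castRingHom B) = Int.castRingHom Ω :=
        RingHom.ext_int _ _
      rw [h1]
      exact h j)
  obtain ⟨z, hz0, hz1, hz2⟩ := key
  refine ⟨z, hz0, hz1, fun j => ?_⟩
  have h1 : ρ.comp (Int.castRingHom B) = Int.castRingHom κ := RingHom.ext_int _ _
  have h2 := hz2 j
  rw [h1] at h2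
  exact h2

/-- a point on the twist by `d` over a finite extension of `ℚ_p` of degree prime to `ℓ` gives a fixed
point over a field with `p ^ f` elements, `f` prime to `ℓ`, if `p` divides `d` exactly once -/
theorem local_red (p : ℕ) [hp : Fact p.Prime] (E : Type) [Field E] [Algebra ℚ_[p] E]
    [FiniteDimensional ℚ_[p] E] (ℓ : ℕ)
    (hℓ : ℓ.Prime) (hl : ¬ ℓ ∣ Module.finrank ℚ_[p] E) (d : ℤ) (hd : (p : ℤ) ∣ d)
    (hd' : ¬ (p : ℤ) ^ 2 ∣ d) (k : ℕ) {n : ℕ} (w : Fin n → ℕ) {J : Type}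
    (F : J → MvPolynomial (Fin n) ℤ) (D : J → ℕ) (hF : ∀ j, (F j).IsHomogeneous (D j))
    {Ω : Type} [Field Ω] [Algebra E Ω] (x : Fin n → E) (hx : x ≠ 0) (δ : Ω)
    (hδ : δ ^ (ℓ ^ k) = (d : Ω))
    (h : ∀ j, MvPolynomial.eval₂ (Int.castRingHom Ω)
      (fun i => δ ^ (w i) * algebraMap E Ω (x i)) (F j) = 0) :
    ∃ (κ : Type) (_ : Field κ) (f : ℕ), Nat.card κ = p ^ f ∧ ¬ ℓ ∣ f ∧ ∃ z : Fin n → κ, z ≠ 0 ∧
      (∀ i i', z i ≠ 0 → z i' ≠ 0 → w i ≡ w i' [MOD ℓ ^ k]) ∧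
      ∀ j, MvPolynomial.eval₂ (Int.castRingHom κ) z (F j) = 0 := by
  classical
  let algZ : Algebra ℤ_[p] E := ((algebraMap ℚ_[p] E).comp (algebraMap ℤ_[p] ℚ_[p])).toAlgebra
  have htow : IsScalarTower ℤ_[p] ℚ_[p] E := IsScalarTower.of_algebraMap_eq fun _ => rfl
  set I : Ideal ℤ_[p] := IsLocalRing.maximalIdeal ℤ_[p] with hI
  have hIm : I.IsMaximal := IsLocalRing.maximalIdeal.isMaximal _
  have hI0 : I ≠ ⊥ := IsDiscreteValuationRing.not_a_field ℤ_[p]
  have hIp : I = Ideal.span {(p : ℤ_[p])} := PadicInt.maximalIdeal_eq_span_p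
  have hp0 : (p : ℤ_[p]) ≠ 0 := PadicInt.prime_p.ne_zero
  have hS1 : IsDedekindDomain (integralClosure ℤ_[p] E) :=
    integralClosure.isDedekindDomain ℤ_[p] ℚ_[p] E
  have hS2 : IsFractionRing (integralClosure ℤ_[p] E) E :=
    integralClosure.isFractionRing_of_finite_extension ℚ_[p] E
  have hS3 : Module.Finite ℤ_[p] (integralClosure ℤ_[p] E) :=
    IsIntegralClosure.finite ℤ_[p] ℚ_[p] E _
  have hinj : Function.Injective (algebraMap ℤ_[p] (integralClosure ℤ_[p] E)) := by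
    intro x y hxy
    have h1 := congrArg (fun z : integralClosure ℤ_[p] E => (z : E)) hxy
    exact Subtype.ext ((algebraMap ℚ_[p] E).injective h1)
  have hff := (faithfulSMul_iff_algebraMap_injective ℤ_[p] (integralClosure ℤ_[p] E)).2 hinj
  obtain ⟨P, hP1, hP2, he, hf⟩ := exists_prime_l ℤ_[p] I hI0 (integralClosure ℤ_[p] E) ℚ_[p] E ℓ
    hℓ hl
  have hP0 : P ≠ ⊥ := by
    rintro rfl
    have h1 := hP2.over
    apply hI0
    rw [h1, Ideal.under_bot]
  have hPm : P.IsMaximal := Ideal.IsPrime.isMaximal inferInstance hP0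
  obtain ⟨B, hB, i, ρ, hρ, hi, hρi, hui, hPi⟩ := exists_local (integralClosure ℤ_[p] E) E P hP0
  obtain ⟨π, hπ⟩ := IsDiscreteValuationRing.exists_irreducible B
  obtain ⟨u, hu⟩ := unif_pow ℤ_[p] I (p : ℤ_[p]) hIp hp0 (integralClosure ℤ_[p] E) hinj P B i hui
    hPi π hπ
  set e := Ideal.ramificationIdx' I P with he'
  -- the residue field
  let fld : Field (integralClosure ℤ_[p] E ⧸ P) := Ideal.Quotient.field P
  let fldI : Field (ℤ_[p] ⧸ I) := Ideal.Quotient.field I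
  have hcardI : Nat.card (ℤ_[p] ⧸ I) = p := by
    have h1 : Nat.card (ℤ_[p] ⧸ I) = Nat.card (ZMod p) :=
      Nat.card_congr (PadicInt.residueField (p := p)).toEquiv
    rw [h1, Nat.card_zmod]
  have hfinI : Finite (ℤ_[p] ⧸ I) := by
    apply Nat.finite_of_card_ne_zero
    rw [hcardI]
    exact hp.out.ne_zero
  have hmf : Module.Finite (ℤ_[p] ⧸ I) (integralClosure ℤ_[p] E ⧸ P) := by
    apply Module.finite_of_finrank_pos
    apply Nat.pos_of_ne_zero
    intro h0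
    apply hf
    rw [Ideal.inertiaDeg'_algebraMap, h0]
    exact dvd_zero _
  have hcard : Nat.card (integralClosure ℤ_[p] E ⧸ P) = p ^ (Ideal.inertiaDeg' I P) := by
    rw [Module.natCard_eq_pow_finrank (K := ℤ_[p] ⧸ I), Ideal.inertiaDeg'_algebraMap, hcardI]
  refine ⟨integralClosure ℤ_[p] E ⧸ P, fld, Ideal.inertiaDeg' I P, hcard, hf, ?_⟩
  -- the order of `d`
  obtain ⟨c, hc⟩ := hd
  have hcI : (c : ℤ_[p]) ∉ I := by
    intro h1
    rw [hI, IsLocalRing.mem_maximalIdeal, PadicInt.mem_nonunits] at h1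
    rw [PadicInt.norm_int_lt_one_iff_dvd] at h1
    obtain ⟨c', hc'⟩ := h1
    apply hd'
    exact ⟨c', by rw [hc, hc']; ring⟩
  have hcP : algebraMap ℤ_[p] (integralClosure ℤ_[p] E) (c : ℤ_[p]) ∉ P := by
    intro h1
    apply hcI
    rw [hP2.over]
    exact h1
  obtain ⟨uc, huc⟩ := hui _ hcP
  have hdB : i (algebraMap ℤ_[p] (integralClosure ℤ_[p] E) (d : ℤ_[p])) =
      (u * uc : Bˣ) * π ^ e := by
    rw [hc, Int.cast_mul, map_mul, map_mul, Int.cast_natCast, hu, ← huc, Units.val_mul]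
    ring
  have hord : OrdIs π ((d : ℤ) : E) (e : ℤ) := by
    refine ⟨u * uc, ?_⟩
    have h1 : ((d : ℤ) : E) =
        ((i (algebraMap ℤ_[p] (integralClosure ℤ_[p] E) (d : ℤ_[p])) : B) : E) := by
      rw [hi]
      simp
    rw [h1, hdB, zpow_natCast]
    rfl
  exact red_general π hπ _ ρ hρ ℓ hℓ d e he hord k w F D hF x hx δ hδ h

/-- for every number field of degree prime to `ℓ` there is a place `v` above `p` such that a point on
the twist by `d` over the completion at `v` gives a fixed point over a field with `p ^ f` elements,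
`f` prime to `ℓ`, if `p` divides `d` exactly once -/
theorem compl_red (L : Type) [Field L] [NumberField L] (p : ℕ) (hp : p.Prime) (ℓ : ℕ)
    (hℓ : ℓ.Prime) (hl : ¬ ℓ ∣ Module.finrank ℚ L) (d : ℤ) (hd : (p : ℤ) ∣ d)
    (hd' : ¬ (p : ℤ) ^ 2 ∣ d) :
    ∃ v : HeightOneSpectrum (𝓞 L), (p : 𝓞 L) ∈ v.asIdeal ∧
    ∃ (κ : Type) (_ : Field κ) (f : ℕ), Nat.card κ = p ^ f ∧ ¬ ℓ ∣ f ∧
    ∀ (k : ℕ) {n : ℕ} (w : Fin n → ℕ) {J : Type}
    (F : J → MvPolynomial (Fin n) ℤ) (D : J → ℕ), (∀ j, (F j).IsHomogeneous (D j)) →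
    ∀ {Ω : Type} [Field Ω] [Algebra (v.adicCompletion L) Ω] (x : Fin n → v.adicCompletion L),
    x ≠ 0 → ∀ δ : Ω, δ ^ (ℓ ^ k) = (d : Ω) →
    (∀ j, MvPolynomial.eval₂ (Int.castRingHom Ω)
      (fun i => δ ^ (w i) * algebraMap (v.adicCompletion L) Ω (x i)) (F j) = 0) →
     ∃ z : Fin n → κ, z ≠ 0 ∧
      (∀ i i', z i ≠ 0 → z i' ≠ 0 → w i ≡ w i' [MOD ℓ ^ k]) ∧
      ∀ j, MvPolynomial.eval₂ (Int.castRingHom κ) z (F j) = 0 := by
  classical
  have hp0 : (p : ℤ) ≠ 0 := by exact_mod_cast hp.ne_zero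
  have hpp : Prime (p : ℤ) := Nat.prime_iff_prime_int.1 hp
  set I : Ideal ℤ := Ideal.span {(p : ℤ)} with hI
  have hI0 : I ≠ ⊥ := by
    rw [hI, Ne, Ideal.span_singleton_eq_bot]
    exact hp0
  have hIp : I.IsPrime := (Ideal.span_singleton_prime hp0).2 hpp
  have hIm : I.IsMaximal := hIp.isMaximal hI0
  have htf : Module.IsTorsionFree ℤ (𝓞 L) := inferInstance
  obtain ⟨P, hP1, hP2, he, hf⟩ := exists_prime_l ℤ I hI0 (𝓞 L) ℚ L ℓ hℓ hl
  have hP0 : P ≠ ⊥ := by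
    rintro rfl
    have h1 := hP2.over
    apply hI0
    rw [h1, Ideal.under_bot]
  have hPm : P.IsMaximal := Ideal.IsPrime.isMaximal inferInstance hP0
  set v : HeightOneSpectrum (𝓞 L) := ⟨P, hP1, hP0⟩ with hv
  have hpP : (p : 𝓞 L) ∈ P := by
    have h1 : (p : ℤ) ∈ I := Ideal.mem_span_singleton_self _
    rw [hP2.over] at h1
    have h2 : algebraMap ℤ (𝓞 L) (p : ℤ) ∈ P := h1
    simpa using h2
  set e := Ideal.ramificationIdx' I P with he'
  -- the residue field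
  let fldI : Field (ℤ ⧸ I) := Ideal.Quotient.field I
  let fld : Field (𝓞 L ⧸ P) := Ideal.Quotient.field P
  have hfinI : Finite (ℤ ⧸ I) := Ideal.finiteQuotientOfFreeOfNeBot _ hI0
  have hfinP : Finite (𝓞 L ⧸ P) := Ideal.finiteQuotientOfFreeOfNeBot _ hP0
  have hmf : Module.Finite (ℤ ⧸ I) (𝓞 L ⧸ P) := Module.Finite.of_finite
  have hcard : Nat.card (𝓞 L ⧸ P) = p ^ (Ideal.inertiaDeg' I P) := by
    rw [Module.natCard_eq_pow_finrank (K := ℤ ⧸ I), Ideal.inertiaDeg'_algebraMap,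
      Nat.card_congr (Int.quotientSpanNatEquivZMod p).toEquiv, Nat.card_zmod]
  have hcard' : Nat.card (IsLocalRing.ResidueField (Ov v)) = p ^ (Ideal.inertiaDeg' I P) := by
    rw [← hcard]
    exact (Nat.card_congr (resEquiv v).toEquiv).symm
  refine ⟨v, hpP, IsLocalRing.ResidueField (Ov v), inferInstance, Ideal.inertiaDeg' I P, hcard',
    hf, ?_⟩
  -- the order of `d`
  obtain ⟨c, hc⟩ := hd
  have hcI : c ∉ I := by
    intro h1
    obtain ⟨c', hc'⟩ := Ideal.mem_span_singleton.1 h1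
    apply hd'
    exact ⟨c', by rw [hc, hc']; ring⟩
  have hcP : algebraMap ℤ (𝓞 L) c ∉ P := by
    intro h1
    apply hcI
    rw [hP2.over]
    exact h1
  have hmap : I.map (algebraMap ℤ (𝓞 L)) = Ideal.span {(p : 𝓞 L)} := by
    rw [hI, Ideal.map_span, Set.image_singleton]
    congr 2
    simp
  have hmap0 : I.map (algebraMap ℤ (𝓞 L)) ≠ ⊥ := by
    rw [hmap, Ne, Ideal.span_singleton_eq_bot]
    exact_mod_cast hp.ne_zero
  have hpe : (p : 𝓞 L) ∈ P ^ e := by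
    have h1 : I.map (algebraMap ℤ (𝓞 L)) ≤ P ^ e := Ideal.le_pow_ramificationIdx'
    apply h1
    rw [hmap]
    exact Ideal.mem_span_singleton_self _
  have hpe' : (p : 𝓞 L) ∉ P ^ (e + 1) := by
    intro h1
    have h2 : I.map (algebraMap ℤ (𝓞 L)) ≤ P ^ (e + 1) := by
      rw [hmap, Ideal.span_singleton_le_iff_mem]
      exact h1
    have h3 := (Ideal.dvd_iff_le).2 h2
    have hfm : FiniteMultiplicity P (I.map (algebraMap ℤ (𝓞 L))) :=
      FiniteMultiplicity.of_not_isUnit (fun h => hP1.ne_top (Ideal.isUnit_iff.1 h)) hmap0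
    refine hfm.not_pow_dvd_of_multiplicity_lt ?_ h3
    rw [← Ideal.IsDedekindDomain.ramificationIdx'_eq_multiplicity hmap0 hP1]
    exact Nat.lt_succ_self _
  have hdO : ((d : ℤ) : 𝓞 L) = (p : 𝓞 L) * algebraMap ℤ (𝓞 L) c := by
    rw [hc]
    simp
  have hb : ((d : ℤ) : 𝓞 L) ∈ v.asIdeal ^ e := by
    rw [hdO]
    exact Ideal.mul_mem_right _ _ hpe
  have hb' : ((d : ℤ) : 𝓞 L) ∉ v.asIdeal ^ (e + 1) := by
    rw [hdO]
    intro h1
    rcases Ideal.IsPrime.mem_pow_mul P h1 with h2 | h2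
    · exact hpe' h2
    · exact hcP h2
  obtain ⟨π0, hπ0⟩ := v.intValuation_exists_uniformizer
  set ϖ : Ov v := algebraMap (𝓞 L) (Ov v) π0 with hϖdef
  have hϖv : Valued.v (ϖ : v.adicCompletion L) = exp (-((1 : ℕ) : ℤ)) := by
    rw [hϖdef, valued_Ov, hπ0]
    norm_num
  have hϖ : Irreducible ϖ := irreducible_of_valued v ϖ hϖv
  have hord : OrdIs ϖ ((d : ℤ) : v.adicCompletion L) (e : ℤ) := by
    have h1 : ((d : ℤ) : v.adicCompletion L) =
        ((algebraMap (𝓞 L) (Ov v) ((d : ℤ) : 𝓞 L) : Ov v) : v.adicCompletion L) := by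
      rw [map_intCast]
      norm_cast
    rw [h1]
    apply ordIs_of_valued v ϖ hϖv
    rw [valued_Ov]
    exact intVal_eq v _ _ hb hb'
  intro k n w J F D hF Ω _ _ x hx δ hδ h
  exact red_general ϖ hϖ _ (IsLocalRing.residue (Ov v)) IsLocalRing.residue_surjective ℓ hℓ d e he
    hord k w F D hF x hx δ hδ h

end Pool.Agent.Q296.TW
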